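import Pool.Agent.Q269.GR.StF

/-! Project GR (helper269), job WPA: Frobenius on the constants and on monic primes. -/

set_option autoImplicit false
set_option linter.all false

open scoped Classical
open Finset Polynomial

namespace Pool.Agent.Q251.GR

open Pool.Agent.Q269.GR
open Pool.Agent.Y164.PS (L Hyp)

theorem mem_pr' {k : Type} [Field k] {D : k[X]} (hD : D ≠ 0) (P : k[X]) :
    P ∈ pr D ↔ P.Monic ∧ Irreducible P ∧ P ∣ D := by
  unfold pr
  rw [Multiset.mem_toFinset, UniqueFactorizationMonoid.mem_normalizedFactors_iff' hD]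
  constructor
  · rintro ⟨h1, h2, h3⟩
    exact ⟨(normalize_eq_self_iff_monic h1.ne_zero).1 h2, h1, h3⟩
  · rintro ⟨h1, h2, h3⟩
    exact ⟨h2, (normalize_eq_self_iff_monic h2.ne_zero).2 h1, h3⟩

section fro

variable (k k' E : Type) [Field k] [Fintype k] [Field k'] [Fintype k'] [Algebra k k'] [Field E]
  [Algebra k'[X] E] [IsFractionRing k'[X] E]

theorem ex_sg : ∃ σ : E ≃+* E, IsSg k k' σ := by
  have hb : Function.Bijective (fr k : k' →+* k') :=
    Finite.injective_iff_bijective.1 (fr k : k' →+* k').injective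
  let f : k' ≃+* k' := RingEquiv.ofBijective (fr k) hb
  let g : k'[X] ≃+* k'[X] := Polynomial.mapEquiv f
  refine ⟨IsFractionRing.ringEquivOfRingEquiv g, ⟨fun p => ?_⟩⟩
  rw [IsFractionRing.ringEquivOfRingEquiv_algebraMap]
  rfl

end fro

section fro2

variable {k k' : Type} [Field k] [Fintype k] [Field k'] [Fintype k'] [Algebra k k']

theorem ph_inj : Function.Injective (ph k : k'[X] → k'[X]) :=
  Polynomial.map_injective _ (fr k : k' →+* k').injective

theorem ph_it_inj (c : ℕ) : Function.Injective ((ph k : k'[X] → k'[X])^[c]) :=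
  ph_inj.iterate c

theorem ph_dvd {T D : k'[X]} (h : T ∣ D) : ph k T ∣ ph k D := by
  obtain ⟨x, hx⟩ := h
  exact ⟨ph k x, by rw [hx]; exact Polynomial.map_mul _⟩

end fro2

end Pool.Agent.Q251.GR
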